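import Pool.Agent.Lib.MP_1fca05_lc.PowGap

/-!
Black pebbling: a factor below two for `Peb` decides the balanced biclique gap problem
(MP_1fca05_lc, Q1, partial answer).

From a digraph `R` on `m` vertices (columns) we build in polynomial time the dag `D_R` with
`20 (m + 1) ^ 3 + (m + 1)` nodes, indegree at most two and a unique sink. If the columns can be
ordered so that the first `i` of them have at most `i + j` out-neighbours (for every `i`), then
`Peb (D_R) ≤ m + j + 3`; if any two sets of at least `q` columns are joined by an arc, then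
`Peb (D_R) ≥ 2 m + 3 - 4 q`. For the `k`-th power of `R` in place of `R`, with `M = m ^ k` columns,
this gives `Peb ≤ (1 + ε) M` if there are two sets of `(1 / 2 - δ) m` columns of `R` without an arc
from the first to the second, and `Peb ≥ (2 - ε) M` if any two sets of `δ m` columns of `R` are
joined. Telling these two cases apart is hard under the small set expansion hypothesis.
-/

namespace Pool.Agent.Results.MP_1fca05_lc.BelowTwo

open MP1fca05

theorem result :
    (∀ (m : ℕ) (R : Fin m → Fin m → Prop),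
      IsPebDag (Arc R) (tgt m) ∧ Fintype.card (Node m) = 20 * (m + 1) ^ 3 + (m + 1) ∧
      CanPebble (Arc R) (tgt m) (Peb (Arc R) (tgt m)) ∧
      (∀ j, Layout R j → Peb (Arc R) (tgt m) ≤ m + j + 3) ∧
      (∀ q, MP1fca05.Joined R q → 2 * m + 3 ≤ Peb (Arc R) (tgt m) + 4 * q)) ∧
    (∀ ε : ℝ, 0 < ε → ε ≤ 1 →
      ∃ (k m₀ : ℕ) (δ : ℝ), 1 ≤ k ∧ 0 < δ ∧ ∀ m : ℕ, m₀ ≤ m → ∀ R : Fin m → Fin m → Prop,
        (Hole R δ → (Peb (Arc (Pw R k)) (tgt (m ^ k)) : ℝ) ≤ (1 + ε) * (m : ℝ) ^ k) ∧
        (NoHole R δ → (2 - ε) * (m : ℝ) ^ k ≤ Peb (Arc (Pw R k)) (tgt (m ^ k))) ∧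
        (∀ α : ℝ, Hole R δ → α ≤ (2 - 3 * ε) * Peb (Arc (Pw R k)) (tgt (m ^ k)) →
          α < (2 - ε) * (m : ℝ) ^ k)) :=
  ⟨fun m R => ⟨isPebDag R, card_node m, canPebble_peb R, fun _ hj => peb_le hj,
    fun _ hq => le_peb hq⟩, hole_gap⟩

end Pool.Agent.Results.MP_1fca05_lc.BelowTwo
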