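import Pool.Agent.Lib.MP_1fca05_lc.BdFinal

/-!
Amplification of the black pebbling number at indegree two; additive error `n ^ (1 / 2 - ε)`
(MP_1fca05_lc, Q1, partial answer).

Let `H` be a dag with `N` nodes, indegree at most two and the unique sink `z`. For every `t` we
build in polynomial time a dag with at most `27 N ^ 2 (t + 1) ^ 2` nodes, indegree at most two and
a unique sink, whose black pebbling number lies between `(t + 1) (Peb H - 1)` and
`(t + 1) (Peb H + 1) + 1`. So for every `ε > 0` an approximation of `Peb` with additive error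
`n ^ (1 / 2 - ε)` (or `Peb ^ (1 - ε)`) on dags of indegree at most two would compute `Peb H` up to
an additive error `1`.
-/

namespace Pool.Agent.Results.MP_1fca05_lc.BundleDag

open MP1fca05

theorem result {N : ℕ} (E : Fin N → Fin N → Prop) (z : Fin N) (h : IsPebDag E z) (t : ℕ) :
    IsPebDag (BArc E z t (bL N t)) (btgt E z t (bL N t)) ∧
      Finite (BNode E z t (bL N t)) ∧
      Nat.card (BNode E z t (bL N t)) ≤ 27 * N ^ 2 * (t + 1) ^ 2 ∧
      CanPebble E z (Peb E z) ∧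
      CanPebble (BArc E z t (bL N t)) (btgt E z t (bL N t))
        (Peb (BArc E z t (bL N t)) (btgt E z t (bL N t))) ∧
      Peb (BArc E z t (bL N t)) (btgt E z t (bL N t)) ≤ (t + 1) * (Peb E z + 1) + 1 ∧
      (t + 1) * (Peb E z - 1) ≤ Peb (BArc E z t (bL N t)) (btgt E z t (bL N t)) ∧
      (∀ A : ℝ, (Peb (BArc E z t (bL N t)) (btgt E z t (bL N t)) : ℝ) ≤ A →
        A < Peb (BArc E z t (bL N t)) (btgt E z t (bL N t)) + t →
        ⌊A / (t + 1)⌋₊ ≤ Peb E z + 1 ∧ Peb E z ≤ ⌊A / (t + 1)⌋₊ + 1) ∧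
      ∀ ε : ℝ, 0 < ε → ε ≤ 1 / 2 → (6 * N : ℝ) ≤ ((t : ℝ) + 1) ^ ε →
        ∀ A : ℝ, (Peb (BArc E z t (bL N t)) (btgt E z t (bL N t)) : ℝ) ≤ A →
          (A ≤ Peb (BArc E z t (bL N t)) (btgt E z t (bL N t)) +
              (Nat.card (BNode E z t (bL N t)) : ℝ) ^ (1 / 2 - ε) ∨
            A ≤ Peb (BArc E z t (bL N t)) (btgt E z t (bL N t)) +
              (Peb (BArc E z t (bL N t)) (btgt E z t (bL N t)) : ℝ) ^ (1 - ε)) →
          ⌊A / (t + 1)⌋₊ ≤ Peb E z + 1 ∧ Peb E z ≤ ⌊A / (t + 1)⌋₊ + 1 := by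
  obtain ⟨h1, h2, h3⟩ := b_peb h t
  refine ⟨b_isPebDag' h t _, inferInstance, b_card h t, dag_canPebble_peb h.acyclic, h1, h2, ?_,
    fun A hA hA' => b_decides h hA hA', fun ε hε hε1 htε A hA hA' =>
      b_decides_pow h hε hε1 htε hA hA'⟩
  have h4 : Peb E z - 1 ≤ Peb (BArc E z t (bL N t)) (btgt E z t (bL N t)) / (t + 1) :=
    Nat.sub_le_of_le_add h3
  have h5 := (Nat.le_div_iff_mul_le (Nat.succ_pos t)).1 h4
  rw [Nat.mul_comm]
  exact h5

end Pool.Agent.Results.MP_1fca05_lc.BundleDag
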