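import Pool.Agent.Lib.MP_1fca05_lc.CpFinal

/-!
Black pebbling numbers of blow-ups by copies; additive error `n ^ (1 - ε)`
(MP_1fca05_lc, Q1, partial answer).

Let `G` be a finite dag (of any indegree) with the unique sink `z`, which is not a source. The
blow-up of `G` replaces every node by `t ≥ 1` copies, every arc by all the arcs between the copies,
and adds one sink with an arc from every copy of `z`. Its black pebbling number is exactly
`t (Peb G + 1) - 1`. So for every `ε > 0` an approximation of `Peb` with additive error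
`n ^ (1 - ε)` (or `Peb ^ (1 - ε)`) on all dags would compute `Peb G` exactly.
-/

namespace Pool.Agent.Results.MP_1fca05_lc.CopyBlowUp

open MP1fca05

theorem result {V : Type} [DecidableEq V] [Fintype V] (E : V → V → Prop) (z : V)
    (h : IsSinkDag E z) (hz : ∃ u, E u z) (t : ℕ) (ht : 1 ≤ t) :
    IsSinkDag (CpArc E z t) (.inr ()) ∧
      Fintype.card ((V × Fin t) ⊕ Unit) = t * Fintype.card V + 1 ∧
      CanPebble E z (Peb E z) ∧
      CanPebble (CpArc E z t) (.inr ()) (Peb (CpArc E z t) (.inr ())) ∧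
      Peb (CpArc E z t) (.inr ()) + 1 = t * (Peb E z + 1) ∧
      (∀ A : ℝ, (Peb (CpArc E z t) (.inr ()) : ℝ) ≤ A →
        A < Peb (CpArc E z t) (.inr ()) + t → ⌊(A + 1) / t⌋₊ = Peb E z + 1) ∧
      ∀ ε : ℝ, 0 < ε → ε ≤ 1 → (2 * Fintype.card V : ℝ) ≤ (t : ℝ) ^ ε →
        ∀ A : ℝ, (Peb (CpArc E z t) (.inr ()) : ℝ) ≤ A →
          (A ≤ Peb (CpArc E z t) (.inr ()) +
              (Fintype.card ((V × Fin t) ⊕ Unit) : ℝ) ^ (1 - ε) ∨
            A ≤ Peb (CpArc E z t) (.inr ()) + (Peb (CpArc E z t) (.inr ()) : ℝ) ^ (1 - ε)) →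
          ⌊(A + 1) / t⌋₊ = Peb E z + 1 :=
  ⟨cp_isSinkDag h ht, cp_card t, dag_canPebble_peb h.acyclic,
    dag_canPebble_peb (cp_isSinkDag h ht).acyclic, cp_peb h hz ht,
    fun _ h1 h2 => cp_decides h hz ht h1 h2,
    fun _ hε hε1 htε _ h1 h2 => cp_decides_pow h hz ht hε hε1 htε h1 h2⟩

end Pool.Agent.Results.MP_1fca05_lc.CopyBlowUp
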