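import Pool.Agent.Lib.MP_1fca05_lc.VSep

/-!
Black pebbling numbers compute directed vertex separation numbers (MP_1fca05_lc, Q1, partial
answer).

For every digraph `E` on `m` vertices, `m ≥ 1`, the dag `D` built from the reflexive closure of `E`
(indegree at most two, unique sink, `20 (m + 1) ^ 3 + (m + 1)` nodes) has black pebbling number
`m + VSep E + 2` or `m + VSep E + 3`, where `VSep E` is the vertex separation number of `E`
(the pathwidth, if `E` is symmetric).
-/

namespace Pool.Agent.Results.MP_1fca05_lc.VertexSeparation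

open MP1fca05

theorem result (m : ℕ) (hm : 1 ≤ m) (E : Fin m → Fin m → Prop) :
    IsPebDag (Arc (Rc E)) (tgt m) ∧ Fintype.card (Node m) = 20 * (m + 1) ^ 3 + (m + 1) ∧
      CanPebble (Arc (Rc E)) (tgt m) (Peb (Arc (Rc E)) (tgt m)) ∧
      m + VSep E + 2 ≤ Peb (Arc (Rc E)) (tgt m) ∧
      Peb (Arc (Rc E)) (tgt m) ≤ m + VSep E + 3 :=
  ⟨isPebDag _, card_node m, canPebble_peb _, (peb_rc hm).1, (peb_rc hm).2⟩

end Pool.Agent.Results.MP_1fca05_lc.VertexSeparation
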